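import Pool.Agent.H16.FK.TargetsA

/-!
# TPX: the enriched types satisfy the closed axioms
-/

set_option autoImplicit false

namespace Pool.Agent.H93.FK

open Set Pool.Agent.H75.HCI Pool.Agent.H16.FK

variable {kx k : ℕ} {L : Type}

/-! ## Lists -/

theorem sel_append {α : Type} (l m : List α) (w : List ℕ) :
    sel (l ++ m) (w.filter (fun i => decide (i < l.length)) ++
      (List.range m.length).map (l.length + ·)) = sel l w ++ m := by
  have h1 : ∀ w : List ℕ, (∀ i ∈ w, i < l.length) → sel (l ++ m) w = sel l w := by
    intro w hw
    unfold sel
    refine List.filterMap_congr fun i hi => ?_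
    rw [List.getElem?_append_left (hw i hi)]
  have h2 : sel (l ++ m) ((List.range m.length).map (l.length + ·)) = m := by
    have h3 : sel (l ++ m) ((List.range m.length).map (l.length + ·)) =
        sel m (List.range m.length) := by
      unfold sel
      rw [List.filterMap_map]
      refine List.filterMap_congr fun i _ => ?_
      show (l ++ m)[l.length + i]? = m[i]?
      rw [List.getElem?_append_right (Nat.le_add_right _ _)]
      congr 1
      omega
    rw [h3, sel_range]
  have h4 : ∀ w w' : List ℕ, sel (l ++ m) (w ++ w') = sel (l ++ m) w ++ sel (l ++ m) w' := by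
    intro w w'
    unfold sel
    rw [List.filterMap_append]
  rw [h4, h2, h1 _ (fun i hi => by simpa using (List.mem_filter.1 hi).2),
    sel_filter l w l.length rfl]

/-- a full type determines the types of permuted lists -/
theorem swap_eq {T : List (Idx kx k) → L} (hft : FTx T) {l p q m p' q' : List (Idx kx k)}
    (h1 : l.length = m.length) (h2 : p.length = p'.length) (h3 : q.length = q'.length)
    (h : T (l ++ (q ++ p)) = T (m ++ (q' ++ p'))) : T (l ++ (p ++ q)) = T (m ++ (p' ++ q')) := by
  have key : ∀ a b c : List (Idx kx k), sel (a ++ (c ++ b))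
      (List.range a.length ++ (List.range b.length).map (a.length + c.length + ·) ++
        (List.range c.length).map (a.length + ·)) = a ++ (b ++ c) := by
    intro a b c
    have e1 : ∀ (x y z : List (Idx kx k)), sel (x ++ (y ++ z))
        ((List.range y.length).map (x.length + ·)) = y := by
      intro x y z
      have e2 : sel (x ++ (y ++ z)) ((List.range y.length).map (x.length + ·)) =
          sel y (List.range y.length) := by
        unfold sel
        rw [List.filterMap_map]
        refine List.filterMap_congr fun i hi => ?_
        show (x ++ (y ++ z))[x.length + i]? = y[i]?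
        rw [List.mem_range] at hi
        rw [List.getElem?_append_right (Nat.le_add_right _ _), Nat.add_sub_cancel_left,
          List.getElem?_append_left hi]
      rw [e2, sel_range]
    have e3 : ∀ w w' : List ℕ, ∀ x : List (Idx kx k), sel x (w ++ w') = sel x w ++ sel x w' := by
      intro w w' x
      unfold sel
      rw [List.filterMap_append]
    rw [e3, e3]
    have f1 : sel (a ++ (c ++ b)) (List.range a.length) = a := by
      have := e1 [] a (c ++ b)
      simpa using this
    have f2 : sel (a ++ (c ++ b)) ((List.range b.length).map (a.length + c.length + ·)) = b := by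
      have := e1 (a ++ c) b []
      simpa [List.length_append] using this
    rw [f1, f2, e1 a c b, List.append_assoc]
  have h4 := hft _ _ (List.range l.length ++ (List.range p.length).map
    (l.length + q.length + ·) ++ (List.range q.length).map (l.length + ·))
    (by simp only [List.length_append, h1, h2, h3]) h
  rw [key l p q, h1, h2, h3, key m p' q'] at h4
  exact h4

/-! ## Fresh parts -/

theorem frs_length (n n' : ℕ) (A : List (List (Fin k))) :
    (frs n A : List (Idx kx k)).length = (frs n' A : List (Idx kx k)).length := by
  unfold frs
  rw [List.length_flatten, List.length_flatten, List.map_map, List.map_map]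
  congr 1
  refine List.map_congr_left fun q _ => ?_
  simp [prt]

theorem frs_fst {n : ℕ} {A : List (List (Fin k))} {p : Idx kx k} (h : p ∈ frs n A) :
    p.1 = n := by
  unfold frs prt at h
  rw [List.mem_flatten] at h
  obtain ⟨l, hl, hp⟩ := h
  rw [List.mem_map] at hl
  obtain ⟨q, -, rfl⟩ := hl
  rw [List.mem_map] at hp
  obtain ⟨y, -, rfl⟩ := hp
  rfl

theorem lt_bd {l : List (Idx kx k)} {p : Idx kx k} (h : p ∈ l) : p.1 < bd l := by
  unfold bd
  have h1 : p.1 + 1 ∈ l.map fun p => p.1 + 1 := List.mem_map.2 ⟨p, h, rfl⟩
  have h2 := List.single_le_sum (fun _ _ => Nat.zero_le _) _ h1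
  omega

/-- the rows of the fresh parts -/
def RR (N : ℕ) (A : List (List (Fin k))) : List (ℕ × ℕ × List (Fin k)) :=
  A.zipIdx.map fun q => (N, q.2, q.1)

theorem RR_frs (N : ℕ) (A : List (List (Fin k))) :
    ((RR N A).map fun q => (prt q.1 q.2.1 q.2.2 : List (Idx kx k))).flatten = frs N A := by
  unfold RR frs
  rw [List.map_map]
  rfl

theorem RR_A (N : ℕ) (A : List (List (Fin k))) : (RR N A).map (fun q => q.2.2) = A := by
  unfold RR
  rw [List.map_map]
  exact List.zipIdx_map_fst 0 A

theorem RR_fst {N : ℕ} {A : List (List (Fin k))} {q : ℕ × ℕ × List (Fin k)} (h : q ∈ RR N A) :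
    q.1 = N := by
  unfold RR at h
  rw [List.mem_map] at h
  obtain ⟨q, -, rfl⟩ := h
  rfl

theorem RR_nodup (N : ℕ) (A : List (List (Fin k))) :
    ((RR N A).map fun q => (q.1, q.2.1)).Nodup := by
  unfold RR
  rw [List.map_map]
  have h : A.zipIdx.map ((fun q : ℕ × ℕ × List (Fin k) => (q.1, q.2.1)) ∘
      fun q => (N, q.2, q.1)) = (A.zipIdx.map Prod.snd).map fun i => (N, i) := by
    rw [List.map_map]
    rfl
  rw [h, List.zipIdx_map_snd]
  exact (List.nodup_range' (step := 1)).map fun a b hab => (Prod.mk.injEq _ _ _ _ ▸ hab).2

section

variable {T : List (Idx kx k) → L}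

theorem tp_good {l : List (Idx kx k)} {A : List (List (Fin k))} (hA : Good A) :
    TP T l A = T (l ++ frs (bd l) A) := by
  unfold TP
  rw [if_pos hA]

theorem tp_bad {l : List (Idx kx k)} {A : List (List (Fin k))} (hA : ¬ Good A) :
    TP T l A = T l := by
  unfold TP
  rw [if_neg hA]

theorem good_nil : Good ([] : List (List (Fin k))) := fun a ha => absurd ha (by simp)

theorem good_cons {a : List (Fin k)} {A : List (List (Fin k))} (h1 : a.Nodup)
    (h2 : a.length < k) (hA : Good A) : Good (a :: A) := by
  intro b hb
  rcases List.mem_cons.1 hb with rfl | hb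
  · exact ⟨h1, h2⟩
  · exact hA b hb

theorem tp_nil (l : List (Idx kx k)) : TP T l [] = T l := by
  rw [tp_good good_nil]
  simp [frs]

/-- fresh parts in any free chunk -/
theorem far (hTPW : T_TPW) (hT : AX T) {l : List (Idx kx k)} {N : ℕ} (hN : ∀ p ∈ l, p.1 ≠ N)
    {A : List (List (Fin k))} (hA : Good A) : T (l ++ frs N A) = TP T l A := by
  have h := hTPW kx k L T hT l (RR N A) (RR_nodup N A)
    (fun q hq y hy => hN _ hy (RR_fst hq)) (by rw [RR_A]; exact hA)
  rwa [RR_frs, RR_A] at h

/-- a part and fresh parts in any free chunk -/
theorem far1 (hTPW : T_TPW) (hT : AX T) {l : List (Idx kx k)} {i m N : ℕ} {a : List (Fin k)}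
    (h1 : a.Nodup) (h2 : a.length < k) (hm : Miss i m l) (hN : ∀ p ∈ l, p.1 ≠ N) (hi : i ≠ N)
    {A : List (List (Fin k))} (hA : Good A) :
    T (l ++ (prt i m a ++ frs N A)) = TP T l (a :: A) := by
  have h := hTPW kx k L T hT l ((i, m, a) :: RR N A) (by
      rw [List.map_cons, List.nodup_cons]
      refine ⟨fun h => ?_, RR_nodup N A⟩
      rw [List.mem_map] at h
      obtain ⟨q, hq, he⟩ := h
      exact hi ((congrArg Prod.fst he).symm.trans (RR_fst hq)))
    (by
      intro q hq
      rcases List.mem_cons.1 hq with rfl | hq
      · exact hm
      · exact fun y hy => hN _ hy (RR_fst hq)) (by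
      rw [List.map_cons, RR_A]
      exact good_cons h1 h2 hA)
  rw [List.map_cons, List.map_cons, List.flatten_cons, RR_frs, RR_A] at h
  exact h

/-- the enriched type of `l` with a generic part -/
theorem tp_part (hTPW : T_TPW) (hT : AX T) {l : List (Idx kx k)} {i m : ℕ} {a : List (Fin k)}
    (h1 : a.Nodup) (h2 : a.length < k) (hm : Miss i m l) (A : List (List (Fin k))) :
    (Good A → TP T (l ++ prt i m a) A = TP T l (a :: A)) ∧
      (¬ Good A → TP T (l ++ prt i m a) A = TP T l [a]) := by
  have hN : ∀ p ∈ l, p.1 ≠ bd l + i + 1 := by
    intro p hp h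
    have := lt_bd hp
    omega
  have hi : i ≠ bd l + i + 1 := by omega
  constructor
  · intro hA
    rw [← far hTPW hT (N := bd l + i + 1) ?_ hA, List.append_assoc,
      far1 hTPW hT h1 h2 hm hN hi hA]
    intro p hp
    rcases List.mem_append.1 hp with hp | hp
    · exact hN p hp
    · unfold prt at hp
      rw [List.mem_map] at hp
      obtain ⟨y, -, rfl⟩ := hp
      exact hi
  · intro hA
    rw [tp_bad hA]
    have h := far1 hTPW hT h1 h2 hm hN hi good_nil
    rw [← h]
    simp [frs]

end

theorem pf_TPX (hTPW : T_TPW) : T_TPX := by
  intro kx k L T hT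
  -- the pattern
  have hpat : PatInv (TP T) := by
    intro h A hh l hl
    funext A'
    by_cases hA : Good A'
    · rw [tp_good hA, tp_good hA]
      have hp : PatOn (fun p : Idx kx k => if p.1 = bd l then (bd (l.map h), p.2) else h p)
          {p | p ∈ l ∨ p.1 = bd l} := by
        have hlow : ∀ p ∈ l, p.1 ≠ bd l := fun p hp => (lt_bd hp).ne
        have himg : ∀ p ∈ l, (h p).1 < bd (l.map h) := fun p hp =>
          lt_bd (List.mem_map.2 ⟨p, hp, rfl⟩)
        refine ⟨?_, ?_, ?_⟩
        · intro p hp
          by_cases e : p.1 = bd l
          · simp only [e, if_true]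
          · rcases hp with hp | hp
            · simp only [e, if_false]
              exact hh.kd p (hl p hp)
            · exact absurd hp e
        · intro p hp q hq
          by_cases e : p.1 = bd l
          · by_cases e' : q.1 = bd l
            · simp only [e, e', if_true, lt_self_iff_false]
            · rcases hq with hq | hq
              · simp only [e, e', if_true, if_false]
                have a1 := himg q hq
                have a2 := lt_bd hq
                constructor <;> intro <;> omega
              · exact absurd hq e'
          · rcases hp with hp | hp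
            · by_cases e' : q.1 = bd l
              · simp only [e, e', if_true, if_false]
                exact ⟨fun _ => lt_bd hp, fun _ => himg p hp⟩
              · rcases hq with hq | hq
                · simp only [e, e', if_false]
                  exact hh.ord p (hl p hp) q (hl q hq)
                · exact absurd hq e'
            · exact absurd hp e
        · intro p hp q hq hpq u u' v v' h1 h2 h3 h4
          by_cases e : p.1 = bd l
          · have e' : q.1 = bd l := hpq ▸ e
            simp only [e, e', if_true] at h3 h4
            rw [h1, Sum.inr.injEq] at h3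
            rw [h2, Sum.inr.injEq] at h4
            rw [h3, h4]
          · have e' : q.1 ≠ bd l := fun h => e (hpq.trans h)
            simp only [e, e', if_false] at h3 h4
            rcases hp with hp | hp
            · rcases hq with hq | hq
              · exact hh.mem p (hl p hp) q (hl q hq) hpq u u' v v' h1 h2 h3 h4
              · exact absurd hq e'
            · exact absurd hp e
      have h1 := hT.pat _ _ hp (l ++ frs (bd l) A') (by
        intro x hx
        rcases List.mem_append.1 hx with hx | hx
        · exact Or.inl hx
        · exact Or.inr (frs_fst hx))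
      rw [← h1, List.map_append]
      congr 2
      · refine List.map_congr_left fun p hp => ?_
        rw [if_neg (lt_bd hp).ne]
      · unfold frs
        rw [List.map_flatten, List.map_map]
        congr 1
        refine List.map_congr_left fun q _ => ?_
        unfold prt
        simp only [Function.comp_apply, List.map_map]
        refine List.map_congr_left fun y _ => ?_
        simp
    · rw [tp_bad hA, tp_bad hA]
      exact hT.pat h A hh l hl
  have hlen : ∀ (l l' : List (Idx kx k)) (A : List (List (Fin k))),
      (frs (bd l) A : List (Idx kx k)).length = (frs (bd l') A : List (Idx kx k)).length :=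
    fun l l' A => frs_length _ _ A
  refine ⟨⟨hpat, ?_, ?_, ?_⟩, ?_⟩
  · -- full types
    intro l l' w hl he
    funext A'
    by_cases hA : Good A'
    · have hs : ∀ l : List (Idx kx k), T (sel l w ++ frs (bd l) A') = TP T (sel l w) A' :=
        fun l => far hTPW hT (fun p hp => (lt_bd (sel_mem hp)).ne) hA
      rw [← hs l, ← hs l']
      have h1 := congrFun he A'
      rw [tp_good hA, tp_good hA] at h1
      have h2 := hT.ft _ _ (w.filter (fun i => decide (i < l.length)) ++
        (List.range (frs (bd l) A' : List (Idx kx k)).length).map (l.length + ·))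
        (by rw [List.length_append, List.length_append, hl, hlen l l' A']) h1
      rw [sel_append, hl, hlen l l' A', sel_append] at h2
      exact h2
    · have h1 := congrFun he A'
      rw [tp_bad hA, tp_bad hA] at h1
      rw [tp_bad hA, tp_bad hA]
      exact hT.ft l l' w hl h1
  · -- generic parts
    intro l i m i' m' a h1 h2 h3 h4
    funext A'
    by_cases hA : Good A'
    · rw [(tp_part hTPW hT h1 h2 h3 A').1 hA, (tp_part hTPW hT h1 h2 h4 A').1 hA]
    · rw [(tp_part hTPW hT h1 h2 h3 A').2 hA, (tp_part hTPW hT h1 h2 h4 A').2 hA]
  · -- separation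
    intro n l p i m a hl hp hpn hpa h1 h2 h3 h4
    have h5 : T p = T (prt i m a) := by
      have := congrFun h4 []
      rwa [tp_nil, tp_nil] at this
    funext A'
    by_cases hA : Good A'
    · rw [(tp_part hTPW hT h1 h2 h3 A').1 hA]
      have hφ : StrictMono fun c : ℕ => if c < n then c else c + 1 := by
        intro c d hcd
        show (if c < n then c else c + 1) < (if d < n then d else d + 1)
        split_ifs <;> omega
      set p' := p.map (sh fun c : ℕ => if c < n then c else c + 1) with hp'
      have hl' : l.map (sh fun c : ℕ => if c < n then c else c + 1) = l := by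
        conv_rhs => rw [← List.map_id l]
        refine List.map_congr_left fun x hx => ?_
        show ((if x.1 < n then x.1 else x.1 + 1), x.2) = x
        rw [if_pos (hl x hx)]
      have h6 : TP T (l ++ p) = TP T (l ++ p') := by
        have := hpat _ univ (pat_sh hφ univ) (l ++ p) fun _ _ => mem_univ _
        rw [← this, List.map_append, hl']
      have h7 : T p' = T p := hT.pat _ univ (pat_sh hφ univ) p fun _ _ => mem_univ _
      have hp'a : Abv (n + 1) p' := by
        intro x hx
        rw [hp', List.mem_map] at hx
        obtain ⟨y, hy, rfl⟩ := hx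
        have h8 := hp y hy
        show n + 1 ≤ if y.1 < n then y.1 else y.1 + 1
        rw [if_neg (by omega)]
        omega
      have hp'n : p'.Nodup := by
        refine hpn.map fun x y hxy => ?_
        have h8 : (if x.1 < n then x.1 else x.1 + 1) = (if y.1 < n then y.1 else y.1 + 1) :=
          congrArg Prod.fst hxy
        have h10 : ((fun c : ℕ => if c < n then c else c + 1) x.1, x.2) =
            ((fun c : ℕ => if c < n then c else c + 1) y.1, y.2) := hxy
        have h9 : x.2 = y.2 := (Prod.mk.inj h10).2
        exact Prod.ext (hφ.injective h8) h9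
      have hN : ∀ x ∈ l ++ p', x.1 ≠ n := by
        intro x hx
        rcases List.mem_append.1 hx with hx | hx
        · exact (hl x hx).ne
        · have := hp'a x hx
          omega
      rw [h6, ← far hTPW hT hN hA]
      have hlF : Blw (n + 1) (l ++ (frs n A' : List (Idx kx k))) := by
        intro x hx
        rcases List.mem_append.1 hx with hx | hx
        · have := hl x hx
          omega
        · rw [frs_fst hx]
          omega
      have hM : Miss (n + 1) 0 (l ++ (frs n A' : List (Idx kx k))) := by
        intro y hy
        have h8 : n + 1 < n + 1 := hlF _ hy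
        omega
      have hMl : Miss (n + 1) 0 l := fun y hy => by
        have h8 : n + 1 < n := hl _ hy
        omega
      have h8 : T p' = T (prt (n + 1) 0 a) := by
        rw [h7, h5]
        have := hT.t3 [] i m (n + 1) 0 a h1 h2 (fun y hy => absurd hy (by simp))
          (fun y hy => absurd hy (by simp))
        simpa using this
      have h9 := hT.t4 (n + 1) (l ++ frs n A') p' (n + 1) 0 a hlF hp'a hp'n
        (by rw [hp', List.length_map, hpa]) h1 h2 hM h8
      rw [List.append_assoc, List.append_assoc] at h9
      have h10 := swap_eq hT.ft rfl (by simp [hp', hpa, prt]) rfl h9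
      rw [List.append_assoc, h10]
      exact far1 hTPW hT h1 h2 hMl (fun x hx => (hl x hx).ne) (by omega) hA
    · rw [tp_bad hA, tp_bad hA]
      exact hT.t4 n l p i m a hl hp hpn hpa h1 h2 h3 h5
  · -- extension
    intro l l' i m i' m' a hl he h1 h2 h3 h4
    funext A'
    by_cases hA : Good A'
    · rw [(tp_part hTPW hT h1 h2 h3 A').1 hA, (tp_part hTPW hT h1 h2 h4 A').1 hA, he]
    · rw [(tp_part hTPW hT h1 h2 h3 A').2 hA, (tp_part hTPW hT h1 h2 h4 A').2 hA, he]

end Pool.Agent.H93.FK
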